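import Pool.Agent.H592.TD.Stm

/-!
# TD7: one modulus and one `a` (proof of `S7` from `S1`)
-/

set_option autoImplicit false

open Finset Filter Topology

namespace Pool.Agent.H592.TD

namespace H738S7

/-- `4 ^ ω(q)` is small -/
lemma four_pow (ε : ℝ) (hε : 0 < ε) : ∃ C : ℝ, 1 ≤ C ∧ ∀ q : ℕ, 1 ≤ q →
    (4 : ℝ) ^ q.primeFactors.card ≤ C * (q : ℝ) ^ ε := by
  obtain ⟨P, hP⟩ := exists_nat_gt ((4 : ℝ) ^ (1 / ε))
  refine ⟨4 ^ P, one_le_pow₀ (by norm_num), fun q hq => ?_⟩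
  have h1 : (4 : ℝ) ^ q.primeFactors.card = ∏ _p ∈ q.primeFactors, (4 : ℝ) := by
    rw [prod_const]
  have h2 : ∀ p ∈ q.primeFactors, (4 : ℝ) ≤ (if p < P then 4 else 1) * (p : ℝ) ^ ε := by
    intro p hp
    have hp1 : (1 : ℝ) ≤ p := by exact_mod_cast (Nat.prime_of_mem_primeFactors hp).one_lt.le
    have hp2 : 1 ≤ (p : ℝ) ^ ε := Real.one_le_rpow hp1 hε.le
    split_ifs with h
    · linarith
    · rw [one_mul]
      have h3 : (4 : ℝ) ^ (1 / ε) ≤ p := hP.le.trans (by exact_mod_cast not_lt.mp h)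
      calc (4 : ℝ) = ((4 : ℝ) ^ (1 / ε)) ^ ε := by
            rw [← Real.rpow_mul (by norm_num), one_div_mul_cancel hε.ne', Real.rpow_one]
        _ ≤ (p : ℝ) ^ ε := Real.rpow_le_rpow (by positivity) h3 hε.le
  have h3 : ∏ p ∈ q.primeFactors, (if p < P then (4 : ℝ) else 1) ≤ 4 ^ P := by
    rw [prod_ite, prod_const, prod_const_one, mul_one]
    refine pow_le_pow_right₀ (by norm_num) ?_
    calc (q.primeFactors.filter fun p => p < P).card ≤ (range P).card := by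
          refine card_le_card fun p hp => ?_
          rw [mem_filter] at hp
          exact mem_range.mpr hp.2
      _ = P := card_range P
  have h4 : ∏ p ∈ q.primeFactors, (p : ℝ) ^ ε ≤ (q : ℝ) ^ ε := by
    rw [Real.finsetProd_rpow _ _ (fun i _ => Nat.cast_nonneg i)]
    refine Real.rpow_le_rpow (prod_nonneg fun i _ => Nat.cast_nonneg i) ?_ hε.le
    have := Nat.le_of_dvd hq (Nat.prod_primeFactors_dvd q)
    rw [← Nat.cast_prod]
    exact_mod_cast this
  rw [h1]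
  calc ∏ _p ∈ q.primeFactors, (4 : ℝ)
      ≤ ∏ p ∈ q.primeFactors, ((if p < P then (4 : ℝ) else 1) * (p : ℝ) ^ ε) :=
        prod_le_prod (fun _ _ => by norm_num) h2
    _ = (∏ p ∈ q.primeFactors, (if p < P then (4 : ℝ) else 1)) *
          ∏ p ∈ q.primeFactors, (p : ℝ) ^ ε := prod_mul_distrib
    _ ≤ 4 ^ P * (q : ℝ) ^ ε := mul_le_mul h3 h4
        (prod_nonneg fun i _ => Real.rpow_nonneg (Nat.cast_nonneg i) _) (by positivity)

/-- one box -/
lemma box (hS1 : S1) (s : ℤ) (hs : s ≠ 0) (M₀ q : ℕ) (hM₀ : 1 ≤ M₀) (hsq : Squarefree q)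
    (hc1 : Nat.Coprime q M₀) (hc2 : Nat.Coprime q s.natAbs) (X L : ℝ) (hX : 1 ≤ X)
    (hL : L = Real.log X) (hL0 : 1 ≤ L) (a B₀ B₁ : ℕ) (ha : 1 ≤ a) (hB0 : 1 ≤ B₀) (hB : B₀ ≤ B₁)
    (hBL : (B₁ : ℝ) ≤ B₀ * L) :
    ((B₁ : ℝ) - B₀) * (X / (a * B₁) - 1 - X / (a * B₀ * L)) * rho s a (M₀ * q) -
      8 * (M₀ : ℝ) ^ 2 * 4 ^ q.primeFactors.card * (2 + Real.log (M₀ * q)) ^ 2 *
        (((B₁ : ℝ) - B₀) / Real.sqrt q + Real.sqrt q + X / (a * B₁) / q) ≤
      ∑ b ∈ Ioc B₀ B₁, (cc s X (M₀ * q) a b : ℝ) := by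
  have ha' : (0 : ℝ) < a := by exact_mod_cast ha
  have hB0' : (0 : ℝ) < B₀ := by exact_mod_cast hB0
  have hB1' : (0 : ℝ) < B₁ := by exact_mod_cast (lt_of_lt_of_le hB0 hB)
  have hBr : (B₀ : ℝ) ≤ B₁ := by exact_mod_cast hB
  have hL' : 0 < L := by linarith
  have hX' : 0 < X := by linarith
  set C₀ := ⌊X / (a * B₀ * L)⌋₊ with hC₀
  set C₁ := ⌊X / (a * B₁)⌋₊ with hC₁
  have hCle : C₀ ≤ C₁ := by
    refine Nat.floor_le_floor ?_
    refine div_le_div_of_nonneg_left hX'.le (by positivity) ?_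
    rw [mul_assoc]
    exact mul_le_mul_of_nonneg_left hBL ha'.le
  have hC0le : (C₀ : ℝ) ≤ X / (a * B₀ * L) := Nat.floor_le (by positivity)
  have hC1le : (C₁ : ℝ) ≤ X / (a * B₁) := Nat.floor_le (by positivity)
  have hC1ge : X / (a * B₁) - 1 ≤ (C₁ : ℝ) := by
    have := Nat.lt_floor_add_one (X / (a * B₁))
    linarith
  have h1 := hS1 s M₀ q hs hM₀ hsq hc1 hc2 a B₀ B₁ C₀ C₁ ha hB hCle
  have hρ : 0 ≤ rho s a (M₀ * q) := by unfold rho; positivity
  have h2 : (((Ioc B₀ B₁ ×ˢ Ioc C₀ C₁).filter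
      (fun p : ℕ × ℕ => ((M₀ * q : ℕ) : ℤ) ∣ (a : ℤ) * p.1 * p.2 + s)).card : ℝ) ≤
      ∑ b ∈ Ioc B₀ B₁, (cc s X (M₀ * q) a b : ℝ) := by
    rw [← Nat.cast_sum]
    refine Nat.cast_le.mpr ?_
    rw [card_filter, sum_product]
    refine sum_le_sum fun b hb => ?_
    rw [← card_filter]
    unfold cc
    refine card_le_card fun c hc => ?_
    rw [mem_filter, Finset.mem_Ioc] at hc
    rw [Finset.mem_Ioc] at hb
    obtain ⟨⟨hc3, hc4⟩, hc5⟩ := hc
    have hbr0 : (B₀ : ℝ) ≤ b := by exact_mod_cast hb.1.le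
    have hbr1 : (b : ℝ) ≤ B₁ := by exact_mod_cast hb.2
    have hc6 : X / (a * B₀ * L) < c := Nat.lt_of_floor_lt hc3
    have hc7 : (c : ℝ) ≤ X / (a * B₁) := le_trans (by exact_mod_cast hc4) hC1le
    have hc0 : (0 : ℝ) ≤ c := Nat.cast_nonneg c
    rw [mem_filter, Finset.mem_Icc]
    refine ⟨⟨by omega, ?_⟩, ?_, ?_, hc5⟩
    · refine Nat.le_floor (hc7.trans ?_)
      refine div_le_self hX'.le ?_
      have a1 : (1 : ℝ) ≤ a := by exact_mod_cast ha
      have a2 : (1 : ℝ) ≤ B₁ := by exact_mod_cast (hB0.trans hB)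
      nlinarith
    · rw [← hL]
      push_cast
      rw [div_lt_iff₀ hL']
      rw [div_lt_iff₀ (by positivity)] at hc6
      calc X < c * (a * B₀ * L) := hc6
        _ ≤ c * (a * b * L) := by
            refine mul_le_mul_of_nonneg_left ?_ hc0
            refine mul_le_mul_of_nonneg_right ?_ hL'.le
            exact mul_le_mul_of_nonneg_left hbr0 ha'.le
        _ = a * b * c * L := by ring
    · push_cast
      rw [le_div_iff₀ (by positivity)] at hc7
      calc (a : ℝ) * b * c = c * (a * b) := by ring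
        _ ≤ c * (a * B₁) := by
            refine mul_le_mul_of_nonneg_left ?_ hc0
            exact mul_le_mul_of_nonneg_left hbr1 ha'.le
        _ ≤ X := hc7
  have h3 := (abs_le.mp h1).1
  have h4 : ((B₁ : ℝ) - B₀) * (X / (a * B₁) - 1 - X / (a * B₀ * L)) * rho s a (M₀ * q) ≤
      ((B₁ : ℝ) - B₀) * ((C₁ : ℝ) - C₀) * rho s a (M₀ * q) := by
    refine mul_le_mul_of_nonneg_right ?_ hρ
    exact mul_le_mul_of_nonneg_left (by linarith) (by linarith)
  have h5 : 8 * (M₀ : ℝ) ^ 2 * 4 ^ q.primeFactors.card * (2 + Real.log (M₀ * q)) ^ 2 *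
      (((B₁ : ℝ) - B₀) / Real.sqrt q + Real.sqrt q + ((C₁ : ℝ) - C₀) / q) ≤
      8 * (M₀ : ℝ) ^ 2 * 4 ^ q.primeFactors.card * (2 + Real.log (M₀ * q)) ^ 2 *
      (((B₁ : ℝ) - B₀) / Real.sqrt q + Real.sqrt q + X / (a * B₁) / q) := by
    refine mul_le_mul_of_nonneg_left ?_ (by positivity)
    have hC0' : (0 : ℝ) ≤ C₀ := Nat.cast_nonneg _
    have : ((C₁ : ℝ) - C₀) / q ≤ X / (a * B₁) / q :=
      div_le_div_of_nonneg_right (by linarith) (Nat.cast_nonneg q)
    linarith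
  linarith

/-- the partition of an interval -/
lemma sum_parts (B : ℕ → ℕ) (hB : Monotone B) (f : ℕ → ℝ) (K : ℕ) :
    ∑ b ∈ Ioc (B 0) (B K), f b = ∑ k ∈ range K, ∑ b ∈ Ioc (B k) (B (k + 1)), f b := by
  induction K with
  | zero => rw [range_zero, sum_empty, Ioc_self, sum_empty]
  | succ K ih =>
    rw [sum_range_succ, ← ih, sum_Ioc_consecutive _ (hB (Nat.zero_le K)) (hB (Nat.le_succ K))]

/-- the main term of one box -/
lemma main_one (X L d a b₀ b₁ : ℝ) (hX : 0 < X) (hL : 0 < L) (_hd0 : 0 ≤ d) (hd1 : d ≤ 1)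
    (ha : 0 < a) (hb0 : 0 < b₀) (hb : b₀ ≤ b₁) (hr : b₁ ≤ (1 + d) * b₀) :
    X / a * ((1 - d) * (Real.log b₁ - Real.log b₀) - 1 / L) - (b₁ - b₀) ≤
      (b₁ - b₀) * (X / (a * b₁) - 1 - X / (a * b₀ * L)) := by
  have hb1 : 0 < b₁ := lt_of_lt_of_le hb0 hb
  have e1 : (b₁ - b₀) * (X / (a * b₁) - 1 - X / (a * b₀ * L)) =
      X / a * ((b₁ - b₀) / b₁ - (b₁ - b₀) / b₀ / L) - (b₁ - b₀) := by
    field_simp
    ring
  rw [e1]
  have hXa : 0 ≤ X / a := by positivity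
  have h1 : (1 - d) * (Real.log b₁ - Real.log b₀) ≤ (b₁ - b₀) / b₁ := by
    have h2 : Real.log b₁ - Real.log b₀ = Real.log (b₁ / b₀) :=
      (Real.log_div hb1.ne' hb0.ne').symm
    have h3 : Real.log (b₁ / b₀) ≤ b₁ / b₀ - 1 := Real.log_le_sub_one_of_pos (by positivity)
    have h4 : b₁ / b₀ - 1 = (b₁ - b₀) / b₀ := by field_simp
    rw [h2]
    rw [h4] at h3
    have h5 : (1 - d) * ((b₁ - b₀) / b₀) ≤ (b₁ - b₀) / b₁ := by
      rw [mul_div_assoc', div_le_div_iff₀ hb0 hb1]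
      have h6 : (1 - d) * b₁ ≤ b₀ := by
        calc (1 - d) * b₁ ≤ (1 - d) * ((1 + d) * b₀) :=
              mul_le_mul_of_nonneg_left hr (by linarith)
          _ = b₀ - d ^ 2 * b₀ := by ring
          _ ≤ b₀ := by
              have : 0 ≤ d ^ 2 * b₀ := by positivity
              linarith
      calc (1 - d) * (b₁ - b₀) * b₁ = (b₁ - b₀) * ((1 - d) * b₁) := by ring
        _ ≤ (b₁ - b₀) * b₀ := mul_le_mul_of_nonneg_left h6 (by linarith)
    have h7 : (1 - d) * Real.log (b₁ / b₀) ≤ (1 - d) * ((b₁ - b₀) / b₀) :=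
      mul_le_mul_of_nonneg_left h3 (by linarith)
    exact h7.trans h5
  have h8 : (b₁ - b₀) / b₀ / L ≤ 1 / L := by
    refine div_le_div_of_nonneg_right ?_ hL.le
    rw [div_le_one hb0]
    nlinarith
  have h9 : X / a * ((1 - d) * (Real.log b₁ - Real.log b₀) - 1 / L) ≤
      X / a * ((b₁ - b₀) / b₁ - (b₁ - b₀) / b₀ / L) :=
    mul_le_mul_of_nonneg_left (by linarith) hXa
  linarith

/-- the largeness conditions -/
lemma large (β₁ ε η lam c d A : ℝ) (hβ : 0 < β₁) (hε : 0 < ε) (hη : 0 < η) (hlam : 0 < lam)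
    (hc : 0 < c) (hA : 0 < A) :
    ∀ᶠ X : ℝ in atTop, 1 ≤ X ∧ 2 ≤ Real.log X ∧ c + 3 ≤ η / 2 * lam * Real.log X ∧
      2 * (1 + d) / d ≤ X ^ β₁ ∧ 2 ≤ X ^ β₁ ∧
      (c * Real.log X + 1) * (A * (2 + Real.log X) ^ 2) ≤ X ^ (ε / 2) := by
  have hlog := Real.tendsto_log_atTop
  have e1 : ∀ᶠ X : ℝ in atTop, 2 ≤ Real.log X := hlog.eventually_ge_atTop 2
  have e2 : ∀ᶠ X : ℝ in atTop, (c + 3) / (η / 2 * lam) ≤ Real.log X :=
    hlog.eventually_ge_atTop _
  have e3 : ∀ᶠ X : ℝ in atTop, 2 * (1 + d) / d ≤ X ^ β₁ :=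
    (tendsto_rpow_atTop hβ).eventually_ge_atTop _
  have e4 : ∀ᶠ X : ℝ in atTop, 2 ≤ X ^ β₁ := (tendsto_rpow_atTop hβ).eventually_ge_atTop _
  set t := ε / 16 with ht
  have ht0 : 0 < t := by positivity
  have e5 : ∀ᶠ X : ℝ in atTop, (c / t + 1) * (A * (2 + 1 / t) ^ 2) ≤ X ^ (5 * t) :=
    (tendsto_rpow_atTop (by positivity)).eventually_ge_atTop _
  filter_upwards [eventually_ge_atTop (1 : ℝ), e1, e2, e3, e4, e5] with X h0 h1 h2 h3 h4 h5
  refine ⟨h0, h1, ?_, h3, h4, ?_⟩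
  · rw [div_le_iff₀ (by positivity)] at h2
    linarith
  · have hX0 : 0 < X := by linarith
    have g1 : Real.log X ≤ X ^ t / t := Real.log_le_rpow_div hX0.le ht0
    have g2 : 1 ≤ X ^ t := Real.one_le_rpow h0 ht0.le
    have g3 : c * Real.log X + 1 ≤ (c / t + 1) * X ^ t := by
      have : c * Real.log X ≤ c * (X ^ t / t) := mul_le_mul_of_nonneg_left g1 hc.le
      calc c * Real.log X + 1 ≤ c * (X ^ t / t) + X ^ t := by linarith
        _ = (c / t + 1) * X ^ t := by ring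
    have g4 : 2 + Real.log X ≤ (2 + 1 / t) * X ^ t := by
      calc 2 + Real.log X ≤ 2 * X ^ t + X ^ t / t := by linarith
        _ = (2 + 1 / t) * X ^ t := by ring
    have g5 : (2 + Real.log X) ^ 2 ≤ ((2 + 1 / t) * X ^ t) ^ 2 :=
      pow_le_pow_left₀ (by linarith) g4 2
    have g6 : X ^ (ε / 2) = X ^ (5 * t) * (X ^ t) ^ 3 := by
      rw [← Real.rpow_natCast, ← Real.rpow_mul hX0.le, ← Real.rpow_add hX0]
      congr 1
      rw [ht]
      push_cast
      ring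
    calc (c * Real.log X + 1) * (A * (2 + Real.log X) ^ 2)
        ≤ ((c / t + 1) * X ^ t) * (A * ((2 + 1 / t) * X ^ t) ^ 2) := by
          refine mul_le_mul g3 (mul_le_mul_of_nonneg_left g5 hA.le) (by positivity)
            (by positivity)
      _ = ((c / t + 1) * (A * (2 + 1 / t) ^ 2)) * (X ^ t) ^ 3 := by ring
      _ ≤ X ^ (5 * t) * (X ^ t) ^ 3 := mul_le_mul_of_nonneg_right h5 (by positivity)
      _ = X ^ (ε / 2) := g6.symm

end H738S7

open H738S7 in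
/-- **TD7.** -/
theorem s7 (hS1 : S1) : S7 := by
  intro s hs β₁ β₂ hβ1 hβ12 hβ2 Z η ε hη hε
  obtain ⟨η', hη'0, hη'1, hη'2⟩ : ∃ η' : ℝ, 0 < η' ∧ η' ≤ 1 / 2 ∧ η' ≤ η :=
    ⟨min η (1 / 2), lt_min hη (by norm_num), min_le_right _ _, min_le_left _ _⟩
  obtain ⟨C, hC1, hC⟩ := four_pow (ε / 2) (by positivity)
  obtain ⟨lam, hlam⟩ : ∃ lam : ℝ, lam = β₂ - β₁ := ⟨_, rfl⟩
  have hlam0 : 0 < lam := by rw [hlam]; linarith
  obtain ⟨d, hd⟩ : ∃ d : ℝ, d = η' / 2 := ⟨_, rfl⟩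
  have hd0 : 0 < d := by rw [hd]; positivity
  have hd1 : d ≤ 1 / 4 := by rw [hd]; linarith
  have hlogd : 0 < Real.log (1 + d / 2) := Real.log_pos (by linarith)
  obtain ⟨c, hc⟩ : ∃ c : ℝ, c = lam / Real.log (1 + d / 2) := ⟨_, rfl⟩
  have hc0 : 0 < c := by rw [hc]; positivity
  have hZ0 : (0 : ℝ) ≤ Z := Nat.cast_nonneg Z
  obtain ⟨A, hAdef⟩ : ∃ A : ℝ, A = 8 * (Z : ℝ) ^ 2 * C * (2 * Z + 1) + 1 := ⟨_, rfl⟩
  have hA : 0 < A := by rw [hAdef]; positivity
  obtain ⟨X₀, hX₀⟩ := eventually_atTop.mp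
    (large β₁ ε η' lam c d A hβ1 hε hη'0 hlam0 hc0 hA)
  refine ⟨X₀, fun X hX a M ha haX hG hM1 hM2 => ?_⟩
  obtain ⟨g1, g2, g3, g4, g5, g6⟩ := hX₀ X hX
  obtain ⟨M₀, q, rfl, hM₀1, hM₀Z, hsq, hcop1, hcop2⟩ := hG
  obtain ⟨L, hL⟩ : ∃ L : ℝ, L = Real.log X := ⟨_, rfl⟩
  rw [← hL] at g2 g3 g6 ⊢
  have hX0 : 0 < X := by linarith
  have hL0 : 0 < L := by linarith
  obtain ⟨K, hK⟩ : ∃ K : ℕ, K = ⌈c * L⌉₊ := ⟨_, rfl⟩
  have hK1 : c * L ≤ K := by rw [hK]; exact Nat.le_ceil _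
  have hK2 : (K : ℝ) ≤ c * L + 1 := by
    rw [hK]
    exact (Nat.ceil_lt_add_one (by positivity)).le
  have hK0 : (0 : ℝ) < K := lt_of_lt_of_le (by positivity) hK1
  obtain ⟨x, hx⟩ : ∃ x : ℕ → ℝ, x = fun k : ℕ => X ^ (β₁ + lam * ((k : ℝ) / K)) :=
    ⟨_, rfl⟩
  have hxk : ∀ k, x k = X ^ (β₁ + lam * (k / K)) := fun k => by rw [hx]
  obtain ⟨B, hB⟩ : ∃ B : ℕ → ℕ, B = fun k => ⌊x k⌋₊ := ⟨_, rfl⟩
  have hBk : ∀ k, B k = ⌊x k⌋₊ := fun k => by rw [hB]
  have hxmono : Monotone x := by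
    intro i j hij
    rw [hxk, hxk]
    refine Real.rpow_le_rpow_of_exponent_le g1 ?_
    have h1 : ((i : ℝ) / K) ≤ (j : ℝ) / K :=
      div_le_div_of_nonneg_right (by exact_mod_cast hij) hK0.le
    have := mul_le_mul_of_nonneg_left h1 hlam0.le
    linarith
  have hBmono : Monotone B := by
    intro i j hij
    rw [hBk, hBk]
    exact Nat.floor_le_floor (hxmono hij)
  have hx0 : x 0 = X ^ β₁ := by
    rw [hxk, Nat.cast_zero, zero_div, mul_zero, add_zero]
  have hxK : x K = X ^ β₂ := by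
    rw [hxk, div_self hK0.ne', mul_one, hlam]
    congr 1
    ring
  have hxge : ∀ k, X ^ β₁ ≤ x k := fun k => by
    rw [← hx0]
    exact hxmono (Nat.zero_le k)
  have hxpos : ∀ k, 0 < x k := fun k => lt_of_lt_of_le (by linarith) (hxge k)
  have hratio : ∀ k, x (k + 1) = x k * X ^ (lam / K) := by
    intro k
    rw [hxk, hxk, ← Real.rpow_add hX0]
    congr 1
    push_cast
    field_simp
    ring
  have hXr : X ^ (lam / K) ≤ 1 + d / 2 := by
    rw [Real.rpow_def_of_pos hX0, ← hL]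
    have h1 : L * (lam / K) ≤ Real.log (1 + d / 2) := by
      rw [mul_div_assoc', div_le_iff₀ hK0]
      have h2 : lam = c * Real.log (1 + d / 2) := by
        rw [hc, div_mul_cancel₀ _ hlogd.ne']
      calc L * lam = Real.log (1 + d / 2) * (c * L) := by rw [h2]; ring
        _ ≤ Real.log (1 + d / 2) * K := mul_le_mul_of_nonneg_left hK1 hlogd.le
    calc Real.exp (L * (lam / K)) ≤ Real.exp (Real.log (1 + d / 2)) := Real.exp_le_exp.mpr h1
      _ = 1 + d / 2 := Real.exp_log (by linarith)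
  have hBle : ∀ k, (B k : ℝ) ≤ x k := fun k => by
    rw [hBk]
    exact Nat.floor_le (hxpos k).le
  have hBge : ∀ k, x k - 1 ≤ (B k : ℝ) := fun k => by
    rw [hBk]
    have := Nat.lt_floor_add_one (x k)
    linarith
  have hBr : ∀ k, (B (k + 1) : ℝ) ≤ (1 + d) * B k := by
    intro k
    have h1 := hBle (k + 1)
    have h2 := hBge k
    have h3 : x (k + 1) ≤ x k * (1 + d / 2) := by
      rw [hratio]
      exact mul_le_mul_of_nonneg_left hXr (hxpos k).le
    have h4 : 2 * (1 + d) / d ≤ x k := g4.trans (hxge k)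
    rw [div_le_iff₀ hd0] at h4
    have h5 : (1 + d) * (x k - 1) ≤ (1 + d) * B k :=
      mul_le_mul_of_nonneg_left h2 (by linarith)
    have h6 : (1 + d) * (x k - 1) = x k * (1 + d / 2) + (x k * d - 2 * (1 + d)) / 2 := by ring
    linarith
  have hBhalf : ∀ k, x k / 2 ≤ (B k : ℝ) := by
    intro k
    have h1 := hBge k
    have h2 := hxge k
    linarith
  have hB1 : ∀ k, 1 ≤ B k := by
    intro k
    have h1 := hBhalf k
    have h2 := hxge k
    have h3 : (1 : ℝ) ≤ B k := by linarith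
    exact_mod_cast h3
  have hBpos : ∀ k, (0 : ℝ) < B k := fun k => by exact_mod_cast hB1 k
  have hBstep : ∀ k, (B k : ℝ) ≤ B (k + 1) := fun k => by
    exact_mod_cast hBmono (Nat.le_succ k)
  have ha' : (0 : ℝ) < a := by exact_mod_cast ha
  have hq0 : 0 < q := Nat.pos_of_ne_zero hsq.ne_zero
  have hq' : (0 : ℝ) < q := by exact_mod_cast hq0
  have hM₀' : (1 : ℝ) ≤ M₀ := by exact_mod_cast hM₀1
  have hM₀Z' : (M₀ : ℝ) ≤ Z := by exact_mod_cast hM₀Z
  have hMcast : ((M₀ * q : ℕ) : ℝ) = (M₀ : ℝ) * q := by push_cast; rfl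
  rw [hMcast] at hM1 hM2 ⊢
  have hMpos : (0 : ℝ) < (M₀ : ℝ) * q := by positivity
  have hρ : 0 ≤ rho s a (M₀ * q) := by unfold rho; positivity
  -- the sum over the parts
  have hsum : ∑ b ∈ In X β₁ β₂, (cc s X (M₀ * q) a b : ℝ) =
      ∑ k ∈ range K, ∑ b ∈ Ioc (B k) (B (k + 1)), (cc s X (M₀ * q) a b : ℝ) := by
    have h1 := sum_parts B hBmono (fun b => (cc s X (M₀ * q) a b : ℝ)) K
    rw [hBk 0, hBk K, hx0, hxK] at h1
    exact h1
  obtain ⟨V, hV⟩ : ∃ V : ℝ, V = Real.sqrt ((M₀ : ℝ) * q) + X ^ (1 - β₁) / ((a : ℝ) * ((M₀ : ℝ) * q)) :=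
    ⟨_, rfl⟩
  have hV0 : 0 ≤ V := by rw [hV]; positivity
  obtain ⟨E, hE⟩ : ∃ E : ℝ, E = 8 * (M₀ : ℝ) ^ 2 * 4 ^ q.primeFactors.card *
    (2 + Real.log (M₀ * q)) ^ 2 := ⟨_, rfl⟩
  have hE0 : 0 ≤ E := by rw [hE]; positivity
  have hper : ∀ k ∈ range K,
      (X / a * ((1 - d) * (Real.log (B (k + 1)) - Real.log (B k)) - 1 / L) -
        ((B (k + 1) : ℝ) - B k)) * rho s a (M₀ * q) - E * ((2 * Z + 1) * V) ≤
      ∑ b ∈ Ioc (B k) (B (k + 1)), (cc s X (M₀ * q) a b : ℝ) := by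
    intro k hk
    have hkK : k + 1 ≤ K := mem_range.mp hk
    have hBL : (B (k + 1) : ℝ) ≤ B k * L := by
      calc (B (k + 1) : ℝ) ≤ (1 + d) * B k := hBr k
        _ ≤ L * B k := mul_le_mul_of_nonneg_right (by linarith) (hBpos k).le
        _ = B k * L := mul_comm _ _
    have h1 := box hS1 s hs M₀ q hM₀1 hsq hcop1 hcop2 X L g1 hL (by linarith) a (B k) (B (k + 1))
      ha (hB1 k) (hBmono (Nat.le_succ k)) hBL
    rw [← hE] at h1
    have h2 := main_one X L d a (B k) (B (k + 1)) hX0 hL0 hd0.le (by linarith) ha' (hBpos k)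
      (hBstep k) (hBr k)
    have h3 := mul_le_mul_of_nonneg_right h2 hρ
    have h4 : ((B (k + 1) : ℝ) - B k) / Real.sqrt q + Real.sqrt q + X / (a * B (k + 1)) / q ≤
        (2 * Z + 1) * V := by
      have hsq' : 0 < Real.sqrt q := Real.sqrt_pos.mpr hq'
      have hsM : Real.sqrt q ≤ Real.sqrt ((M₀ : ℝ) * q) := by
        exact Real.sqrt_le_sqrt (le_mul_of_one_le_left hq'.le hM₀')
      have t1 : ((B (k + 1) : ℝ) - B k) / Real.sqrt q ≤ Z * Real.sqrt ((M₀ : ℝ) * q) := by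
        have u1 : (B (k + 1) : ℝ) - B k ≤ (M₀ : ℝ) * q := by
          have v1 := hBle (k + 1)
          have v2 : x (k + 1) ≤ x K := hxmono hkK
          rw [hxK] at v2
          have v3 := hBpos k
          linarith
        calc ((B (k + 1) : ℝ) - B k) / Real.sqrt q ≤ ((M₀ : ℝ) * q) / Real.sqrt q :=
              div_le_div_of_nonneg_right u1 hsq'.le
          _ = M₀ * Real.sqrt q := by
              rw [mul_div_assoc, Real.div_sqrt]
          _ ≤ Z * Real.sqrt ((M₀ : ℝ) * q) := mul_le_mul hM₀Z' hsM hsq'.le hZ0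
      have t2 : X / (a * B (k + 1)) / q ≤
          2 * Z * (X ^ (1 - β₁) / ((a : ℝ) * ((M₀ : ℝ) * q))) := by
        have u1 : X ^ β₁ / 2 ≤ (B (k + 1) : ℝ) := by
          have v1 := hBhalf (k + 1)
          have v2 := hxge (k + 1)
          linarith
        have hXβ : 0 < X ^ β₁ := Real.rpow_pos_of_pos hX0 _
        have u2 : X / (a * B (k + 1)) / q ≤ X / (a * (X ^ β₁ / 2)) / q := by
          refine div_le_div_of_nonneg_right ?_ hq'.le
          refine div_le_div_of_nonneg_left hX0.le (by positivity) ?_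
          exact mul_le_mul_of_nonneg_left u1 ha'.le
        have u3 : X / (a * (X ^ β₁ / 2)) / q = 2 * M₀ * (X ^ (1 - β₁) / (a * (M₀ * q))) := by
          rw [Real.rpow_sub hX0, Real.rpow_one]
          have : (M₀ : ℝ) ≠ 0 := by positivity
          field_simp
        rw [u3] at u2
        refine u2.trans ?_
        refine mul_le_mul_of_nonneg_right (by linarith) (by positivity)
      have t3 : 0 ≤ Real.sqrt ((M₀ : ℝ) * q) := Real.sqrt_nonneg _
      have t4 : 0 ≤ X ^ (1 - β₁) / ((a : ℝ) * ((M₀ : ℝ) * q)) := by positivity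
      rw [hV]
      have t5 : (2 * (Z : ℝ) + 1) * (Real.sqrt ((M₀ : ℝ) * q) +
          X ^ (1 - β₁) / ((a : ℝ) * ((M₀ : ℝ) * q))) =
          Z * Real.sqrt ((M₀ : ℝ) * q) + Real.sqrt ((M₀ : ℝ) * q) +
          2 * Z * (X ^ (1 - β₁) / ((a : ℝ) * ((M₀ : ℝ) * q))) +
          (Z * Real.sqrt ((M₀ : ℝ) * q) + X ^ (1 - β₁) / ((a : ℝ) * ((M₀ : ℝ) * q))) := by ring
      have t6 := mul_nonneg hZ0 t3
      rw [t5]
      linarith
    have h5 := mul_le_mul_of_nonneg_left h4 hE0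
    linarith
  have htot := sum_le_sum hper
  rw [← hsum, sum_sub_distrib, ← sum_mul, sum_sub_distrib, ← mul_sum, sum_sub_distrib, ← mul_sum,
    sum_range_sub (fun k => Real.log (B k)), sum_range_sub (fun k => (B k : ℝ)), sum_const,
    sum_const, card_range, nsmul_eq_mul, nsmul_eq_mul] at htot
  -- the main term
  have hXa : 0 < X / a := by positivity
  have P1 : (1 - η) * (lam * L) * (X / a) ≤
      X / a * ((1 - d) * (Real.log (B K) - Real.log (B 0)) - K * (1 / L)) -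
        ((B K : ℝ) - B 0) := by
    have h1 : (B K : ℝ) ≤ X / a := by
      have v1 := hBle K
      rw [hxK] at v1
      refine v1.trans ?_
      rw [le_div_iff₀ ha']
      calc X ^ β₂ * a ≤ X ^ β₂ * X ^ (1 - β₂ - ε) :=
            mul_le_mul_of_nonneg_left haX (by positivity)
        _ = X ^ (1 - ε) := by
            rw [← Real.rpow_add hX0]
            congr 1
            ring
        _ ≤ X ^ (1 : ℝ) := Real.rpow_le_rpow_of_exponent_le g1 (by linarith)
        _ = X := Real.rpow_one X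
    have h2 : β₂ * L - 1 ≤ Real.log (B K) := by
      have v1 := hBhalf K
      rw [hxK] at v1
      have hp : 0 < X ^ β₂ := Real.rpow_pos_of_pos hX0 _
      have v2 := Real.log_le_log (by positivity) v1
      rw [Real.log_div hp.ne' (by norm_num), Real.log_rpow hX0, ← hL] at v2
      have v3 := Real.log_two_lt_d9
      linarith
    have h3 : Real.log (B 0) ≤ β₁ * L := by
      have v1 := hBle 0
      rw [hx0] at v1
      have v2 := Real.log_le_log (hBpos 0) v1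
      rw [Real.log_rpow hX0, ← hL] at v2
      exact v2
    have h4 : (K : ℝ) * (1 / L) ≤ c + 1 := by
      rw [mul_one_div, div_le_iff₀ hL0]
      have : (c + 1) * L = c * L + L := by ring
      linarith
    have h5 : lam * L - 1 ≤ Real.log (B K) - Real.log (B 0) := by
      rw [hlam]
      linarith
    have h6 : (1 - d) * (lam * L - 1) ≤ (1 - d) * (Real.log (B K) - Real.log (B 0)) :=
      mul_le_mul_of_nonneg_left h5 (by linarith)
    have h7 : (1 - η) * (lam * L) ≤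
        (1 - d) * (Real.log (B K) - Real.log (B 0)) - K * (1 / L) - 1 := by
      have hlL : 0 ≤ lam * L := by positivity
      have w1 : (1 - η) * (lam * L) ≤ (1 - η') * (lam * L) :=
        mul_le_mul_of_nonneg_right (by linarith) hlL
      have w2 : (1 - d) * (lam * L - 1) = (1 - η') * (lam * L) + η' / 2 * lam * L - (1 - d) := by
        rw [hd]
        ring
      linarith
    have h8 := mul_le_mul_of_nonneg_left h7 hXa.le
    have h9 := (hBpos 0).le
    linarith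
  have P2 := mul_le_mul_of_nonneg_right P1 hρ
  -- the error
  have P3 : (K : ℝ) * (E * ((2 * Z + 1) * V)) ≤ X ^ ε * V := by
    have h1 : (4 : ℝ) ^ q.primeFactors.card ≤ C * X ^ (ε / 2) := by
      refine (hC q hq0).trans (mul_le_mul_of_nonneg_left ?_ (by linarith))
      exact Real.rpow_le_rpow hq'.le ((le_mul_of_one_le_left hq'.le hM₀').trans hM2)
        (by positivity)
    have h2 : Real.log (M₀ * q) ≤ L := by
      rw [hL]
      exact Real.log_le_log hMpos hM2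
    have hMq1 : (1 : ℝ) ≤ (M₀ : ℝ) * q := by
      have : (1 : ℝ) ≤ q := by exact_mod_cast hq0
      exact one_le_mul_of_one_le_of_one_le hM₀' this
    have h3 : 0 ≤ Real.log (M₀ * q) := Real.log_nonneg hMq1
    have h4 : (2 + Real.log (M₀ * q)) ^ 2 ≤ (2 + L) ^ 2 :=
      pow_le_pow_left₀ (by linarith) (by linarith) 2
    have hXe : 0 < X ^ (ε / 2) := Real.rpow_pos_of_pos hX0 _
    have h5 : E ≤ 8 * (Z : ℝ) ^ 2 * (C * X ^ (ε / 2)) * (2 + L) ^ 2 := by
      rw [hE]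
      have h6 : (M₀ : ℝ) ^ 2 ≤ (Z : ℝ) ^ 2 := pow_le_pow_left₀ (by linarith) hM₀Z' 2
      have hCX : 0 ≤ C * X ^ (ε / 2) := by positivity
      refine mul_le_mul (mul_le_mul (by linarith) h1 (by positivity) (by positivity)) h4
        (by positivity) (by positivity)
    have h7 : (K : ℝ) * (E * ((2 * Z + 1) * V)) ≤
        (c * L + 1) * ((8 * (Z : ℝ) ^ 2 * (C * X ^ (ε / 2)) * (2 + L) ^ 2) *
          ((2 * Z + 1) * V)) := by
      refine mul_le_mul hK2 (mul_le_mul_of_nonneg_right h5 (by positivity)) (by positivity)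
        (by positivity)
    refine h7.trans ?_
    have h8 : (c * L + 1) * ((8 * (Z : ℝ) ^ 2 * (C * X ^ (ε / 2)) * (2 + L) ^ 2) *
          ((2 * Z + 1) * V)) =
        ((c * L + 1) * ((A - 1) * (2 + L) ^ 2)) * (X ^ (ε / 2) * V) := by
      rw [hAdef]
      ring
    rw [h8]
    have h9 : (c * L + 1) * ((A - 1) * (2 + L) ^ 2) ≤ X ^ (ε / 2) := by
      refine le_trans ?_ g6
      refine mul_le_mul_of_nonneg_left ?_ (by positivity)
      exact mul_le_mul_of_nonneg_right (by linarith) (by positivity)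
    calc ((c * L + 1) * ((A - 1) * (2 + L) ^ 2)) * (X ^ (ε / 2) * V)
        ≤ X ^ (ε / 2) * (X ^ (ε / 2) * V) := mul_le_mul_of_nonneg_right h9 (by positivity)
      _ = X ^ ε * V := by
          rw [← mul_assoc, ← Real.rpow_add hX0]
          congr 2
          ring
  rw [← hlam, ← hV]
  linarith

end Pool.Agent.H592.TD
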